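import Pool.Agent.NH10.FH.Stm

/-!
# Project FH: the mean square over intervals of fixed length as an average over relative lengths
-/

set_option autoImplicit false
set_option maxHeartbeats 4000000

open Filter Topology Set MeasureTheory

namespace Pool.Agent.NH10.FH

open Pool.Agent.NH10.SV

namespace Form

/-! ### Measurability -/

lemma joint_meas : Measurable fun p : ℝ × ℝ => Qu p.1 (p.2 + Real.log p.1) := by
  have hE : Measurable fun p : ℝ × ℝ => Real.exp (p.2 + Real.log p.1) := by fun_prop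
  have h1 : Measurable fun p : ℝ × ℝ => Chebyshev.psi (Real.exp (p.2 + Real.log p.1) +
      Real.exp (p.2 + Real.log p.1) / p.1) :=
    psi_meas.comp (hE.add (hE.div measurable_fst))
  have h2 : Measurable fun p : ℝ × ℝ => Chebyshev.psi (Real.exp (p.2 + Real.log p.1)) :=
    psi_meas.comp hE
  have h3 : Measurable fun p : ℝ × ℝ => Real.exp (p.2 + Real.log p.1) / p.1 :=
    hE.div measurable_fst
  have h4 : Measurable fun p : ℝ × ℝ => Real.exp (-(p.2 + Real.log p.1)) := by fun_prop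
  have h5 := h4.mul (((h1.sub h2).sub h3).pow_const 2)
  exact h5

lemma Gw_meas (α β : ℝ) : Measurable fun τ => Gw τ α β := by
  have h0 : ∀ s : Set ℝ, Measurable fun τ => ∫ v in s, Qu τ (v + Real.log τ) := by
    intro s
    have h := joint_meas.stronglyMeasurable.integral_prod_right' (ν := volume.restrict s)
    exact h.measurable
  have h1 := (h0 (Ioc α β)).sub (h0 (Ioc β α))
  exact h1

/-! ### The sums over the primes -/

lemma psiW_eq {x H : ℝ} (hH : 0 ≤ H) (hy0 : 0 ≤ x - H / 2)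
    (hy : ∀ n : ℕ, x - H / 2 ≠ n) :
    psiW x H = Chebyshev.psi (x + H / 2) - Chebyshev.psi (x - H / 2) := by
  unfold psiW Chebyshev.psi
  have hc : ⌈x - H / 2⌉₊ = ⌊x - H / 2⌋₊ + 1 := by
    refine le_antisymm (Nat.ceil_le_floor_add_one _) ?_
    rw [Nat.add_one_le_iff, Nat.lt_ceil]
    exact lt_of_le_of_ne (Nat.floor_le hy0) fun h => hy _ h.symm
  have hle : ⌊x - H / 2⌋₊ ≤ ⌊x + H / 2⌋₊ := Nat.floor_mono (by linarith)
  have hIcc : Finset.Icc (⌊x - H / 2⌋₊ + 1) ⌊x + H / 2⌋₊ =
      Finset.Ioc ⌊x - H / 2⌋₊ ⌊x + H / 2⌋₊ := by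
    ext n
    rw [Finset.mem_Icc, Finset.mem_Ioc]
    omega
  rw [hc, hIcc, eq_sub_iff_add_eq, add_comm]
  exact Finset.sum_Ioc_consecutive _ (Nat.zero_le _) hle

/-- the integrand -/
noncomputable def ff (T X τ : ℝ) : ℝ := Sx τ (τ * X / T) ^ 2

lemma VH_eq {c T X : ℝ} (hc0 : 0 < c) (hc1 : c < 1) (hT : 10 ≤ c * T) (hX : 0 < X) :
    VH c X (X / T) = 1 / ((1 - c) * T) * ∫ τ in (c * T - 1 / 2)..(T - 1 / 2), ff T X τ := by
  have hT0 : 0 < T := by nlinarith
  have hcT : c * T ≤ T := by nlinarith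
  have hXT : 0 < X / T := div_pos hX hT0
  unfold VH
  have h1 := intervalIntegral.integral_comp_mul_add (a := c * T - 1 / 2) (b := T - 1 / 2)
    (fun x => (psiW x (X / T) - X / T) ^ 2) hXT.ne' (X / T / 2)
  have e1 : X / T * (c * T - 1 / 2) + X / T / 2 = c * X := by field_simp; ring
  have e2 : X / T * (T - 1 / 2) + X / T / 2 = X := by field_simp; ring
  rw [e1, e2, smul_eq_mul] at h1
  have h2 : ∫ x in (c * X)..X, (psiW x (X / T) - X / T) ^ 2 =
      X / T * ∫ τ in (c * T - 1 / 2)..(T - 1 / 2),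
        (psiW (X / T * τ + X / T / 2) (X / T) - X / T) ^ 2 := by
    rw [h1, ← mul_assoc, mul_inv_cancel₀ hXT.ne', one_mul]
  have h3 : ∫ τ in (c * T - 1 / 2)..(T - 1 / 2),
      (psiW (X / T * τ + X / T / 2) (X / T) - X / T) ^ 2 =
      ∫ τ in (c * T - 1 / 2)..(T - 1 / 2), ff T X τ := by
    refine intervalIntegral.integral_congr_ae ?_
    have hcount : (Set.range fun n : ℕ => (n : ℝ) * T / X).Countable := Set.countable_range _
    refine (hcount.ae_notMem volume).mono fun τ hτ hτ2 => ?_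
    rw [Set.uIoc_of_le (by linarith)] at hτ2
    have hτ0 : 0 < τ := by linarith [hτ2.1]
    have e3 : X / T * τ + X / T / 2 - X / T / 2 = τ * X / T := by ring
    have e4 : X / T * τ + X / T / 2 + X / T / 2 = τ * X / T + τ * X / T / τ := by
      field_simp
      ring
    have e5 : τ * X / T / τ = X / T := by field_simp
    show (psiW (X / T * τ + X / T / 2) (X / T) - X / T) ^ 2 = ff T X τ
    rw [psiW_eq hXT.le (by rw [e3]; positivity), e3, e4]
    · unfold ff Sx
      rw [e5]
    · intro n hn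
      rw [e3] at hn
      refine hτ ⟨n, ?_⟩
      show (n : ℝ) * T / X = τ
      rw [← hn]
      field_simp
  rw [h2, h3]
  have : 0 < 1 - c := by linarith
  field_simp

lemma ff_meas (T : ℝ) : Measurable fun p : ℝ × ℝ => ff T p.1 p.2 / p.1 ^ 2 := by
  have hE : Measurable fun p : ℝ × ℝ => p.2 * p.1 / T := by fun_prop
  have h1 : Measurable fun p : ℝ × ℝ => Chebyshev.psi (p.2 * p.1 / T +
      p.2 * p.1 / T / p.2) :=
    psi_meas.comp (hE.add (hE.div measurable_snd))
  have h2 : Measurable fun p : ℝ × ℝ => Chebyshev.psi (p.2 * p.1 / T) :=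
    psi_meas.comp hE
  have h3 : Measurable fun p : ℝ × ℝ => p.2 * p.1 / T / p.2 :=
    hE.div measurable_snd
  have h4 : Measurable fun p : ℝ × ℝ => p.1 ^ 2 := by fun_prop
  have h5 := (((h1.sub h2).sub h3).pow_const 2).div h4
  exact h5

lemma ff_le {T X τ : ℝ} (hX : 0 < X) (h1 : 1 ≤ τ) (h2 : τ ≤ T) : ff T X τ / X ^ 2 ≤ 400 := by
  have hT0 : 0 < T := by linarith
  have hτ0 : 0 < τ := by linarith
  have h3 : |Sx τ (τ * X / T)| ≤ 20 * X := by
    refine (Sx_le h1 (by positivity)).trans ?_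
    refine mul_le_mul_of_nonneg_left ?_ (by norm_num)
    rw [div_le_iff₀ hT0]
    nlinarith
  unfold ff
  rw [div_le_iff₀ (by positivity), ← sq_abs]
  calc |Sx τ (τ * X / T)| ^ 2 ≤ (20 * X) ^ 2 := pow_le_pow_left₀ (abs_nonneg _) h3 2
    _ = _ := by ring

lemma ff_nonneg (T X τ : ℝ) : 0 ≤ ff T X τ := sq_nonneg _

/-- Fubini -/
lemma swap {T A B α β : ℝ} (hA : 0 < A) (hAB : A ≤ B) (hα : 1 ≤ α) (hαβ : α ≤ β) (hβ : β ≤ T) :
    ∫ X in A..B, ∫ τ in α..β, ff T X τ / X ^ 2 = ∫ τ in α..β, ∫ X in A..B, ff T X τ / X ^ 2 := by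
  rw [intervalIntegral.integral_of_le hAB, intervalIntegral.integral_of_le hαβ]
  simp_rw [intervalIntegral.integral_of_le hAB, intervalIntegral.integral_of_le hαβ]
  refine integral_integral_swap ?_
  rw [Measure.prod_restrict]
  refine Measure.integrableOn_of_bounded (M := 400) ?_ (ff_meas T).aestronglyMeasurable ?_
  · rw [Measure.prod_prod]
    exact (ENNReal.mul_lt_top measure_Ioc_lt_top measure_Ioc_lt_top).ne
  · refine (ae_restrict_mem (measurableSet_Ioc.prod measurableSet_Ioc)).mono fun p hp => ?_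
    obtain ⟨⟨h1, h2⟩, h3, h4⟩ := hp
    show ‖ff T p.1 p.2 / p.1 ^ 2‖ ≤ 400
    rw [Real.norm_of_nonneg (div_nonneg (ff_nonneg _ _ _) (sq_nonneg _))]
    exact ff_le (by linarith) (by linarith) (by linarith)

/-- the substitution `X = T e^v` -/
lemma inner {T a b τ : ℝ} (hT : 1 < T) (hab : a ≤ b) (hτ : 0 < τ) :
    ∫ X in (T ^ a)..(T ^ b), ff T X τ / X ^ 2 =
      τ / T * Gw τ ((a - 1) * Real.log T) ((b - 1) * Real.log T) := by
  have hL := Real.log_pos hT
  have hT0 : 0 < T := by linarith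
  obtain ⟨α, hα⟩ : ∃ α : ℝ, α = (a - 1) * Real.log T := ⟨_, rfl⟩
  obtain ⟨β, hβ⟩ : ∃ β : ℝ, β = (b - 1) * Real.log T := ⟨_, rfl⟩
  have e1 : T ^ a = T * Real.exp α := by
    have e : T * Real.exp α = Real.exp (Real.log T + α) := by
      rw [Real.exp_add, Real.exp_log hT0]
    rw [e, Real.rpow_def_of_pos hT0, hα]
    congr 1
    ring
  have e2 : T ^ b = T * Real.exp β := by
    have e : T * Real.exp β = Real.exp (Real.log T + β) := by
      rw [Real.exp_add, Real.exp_log hT0]
    rw [e, Real.rpow_def_of_pos hT0, hβ]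
    congr 1
    ring
  have hαβ : α ≤ β := by
    rw [hα, hβ]
    exact mul_le_mul_of_nonneg_right (by linarith) hL.le
  unfold Gw
  rw [e1, e2, ← hα, ← hβ]
  rw [intervalIntegral.integral_of_le (mul_le_mul_of_nonneg_left (Real.exp_le_exp.2 hαβ) hT0.le),
    intervalIntegral.integral_of_le hαβ]
  have himg : (fun v => T * Real.exp v) '' Ioc α β = Ioc (T * Real.exp α) (T * Real.exp β) := by
    ext x
    constructor
    · rintro ⟨y, ⟨h1, h2⟩, rfl⟩
      exact ⟨mul_lt_mul_of_pos_left (Real.exp_lt_exp.2 h1) hT0,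
        mul_le_mul_of_nonneg_left (Real.exp_le_exp.2 h2) hT0.le⟩
    · rintro ⟨h1, h2⟩
      have hx : 0 < x := (by positivity : 0 < T * Real.exp α).trans h1
      have hx' : 0 < x / T := div_pos hx hT0
      refine ⟨Real.log (x / T), ⟨?_, ?_⟩, ?_⟩
      · rw [Real.lt_log_iff_exp_lt hx', lt_div_iff₀ hT0]
        linarith
      · rw [Real.log_le_iff_le_exp hx', div_le_iff₀ hT0]
        linarith
      · show T * Real.exp (Real.log (x / T)) = x
        rw [Real.exp_log hx']
        field_simp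
  have h1 := integral_image_eq_integral_abs_deriv_smul (s := Ioc α β)
    (f := fun v => T * Real.exp v)
    (f' := fun v => T * Real.exp v) measurableSet_Ioc
    (fun y _ => ((Real.hasDerivAt_exp y).const_mul T).hasDerivWithinAt)
    (fun x _ y _ hxy => Real.exp_injective (mul_left_cancel₀ hT0.ne' hxy))
    (fun X => ff T X τ / X ^ 2)
  rw [himg] at h1
  rw [h1, ← integral_const_mul]
  refine setIntegral_congr_fun measurableSet_Ioc fun v _ => ?_
  show |T * Real.exp v| • (ff T (T * Real.exp v) τ / (T * Real.exp v) ^ 2) =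
    τ / T * Qu τ (v + Real.log τ)
  have hE := Real.exp_pos v
  have e3 : τ * (T * Real.exp v) / T = Real.exp (v + Real.log τ) := by
    rw [Real.exp_add, Real.exp_log hτ]
    field_simp
  rw [abs_of_pos (by positivity), smul_eq_mul]
  unfold ff Qu Su
  rw [e3, Real.exp_neg, Real.exp_add, Real.exp_log hτ]
  field_simp

end Form

open Form in
/-- **FH-FORM.** -/
theorem t_FORM : S_FORM := by
  refine ⟨Gw_meas, fun c T a b hc0 hc1 hT ha hab => ?_⟩
  have hT0 : 10 < T := by nlinarith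
  have hcT : c * T ≤ T := by nlinarith
  have hT1 : 1 < T := by linarith
  have hL := Real.log_pos hT1
  have hA : 0 < T ^ a := by positivity
  have hAB : T ^ a ≤ T ^ b := Real.rpow_le_rpow_of_exponent_le hT1.le hab
  have hc : 0 < 1 - c := by linarith
  unfold W
  have h1 : ∫ X in (T ^ a)..(T ^ b), VH c X (X / T) / (X / T * Real.log T) / X =
      ∫ X in (T ^ a)..(T ^ b), 1 / ((1 - c) * Real.log T) *
        ∫ τ in (c * T - 1 / 2)..(T - 1 / 2), ff T X τ / X ^ 2 := by
    refine intervalIntegral.integral_congr fun X hX => ?_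
    rw [uIcc_of_le hAB] at hX
    have hX0 : 0 < X := hA.trans_le hX.1
    show VH c X (X / T) / (X / T * Real.log T) / X = 1 / ((1 - c) * Real.log T) *
        ∫ τ in (c * T - 1 / 2)..(T - 1 / 2), ff T X τ / X ^ 2
    rw [VH_eq hc0 hc1 hT hX0, intervalIntegral.integral_div]
    field_simp
  rw [h1, intervalIntegral.integral_const_mul,
    swap hA hAB (by linarith) (by linarith) (by linarith)]
  have h2 : ∫ τ in (c * T - 1 / 2)..(T - 1 / 2), ∫ X in (T ^ a)..(T ^ b), ff T X τ / X ^ 2 =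
      ∫ τ in (c * T - 1 / 2)..(T - 1 / 2), 1 / T *
        (τ * Gw τ ((a - 1) * Real.log T) ((b - 1) * Real.log T)) := by
    refine intervalIntegral.integral_congr fun τ hτ => ?_
    rw [uIcc_of_le (by linarith)] at hτ
    have hτ0 : 0 < τ := by linarith [hτ.1]
    show ∫ X in (T ^ a)..(T ^ b), ff T X τ / X ^ 2 = 1 / T *
        (τ * Gw τ ((a - 1) * Real.log T) ((b - 1) * Real.log T))
    rw [inner hT1 hab hτ0]
    ring
  rw [h2, intervalIntegral.integral_const_mul]
  field_simp

end Pool.Agent.NH10.FH
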